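import Pool.Agent.H53.VK.Stm

set_option autoImplicit false

namespace VK.MONaux

open Finset

/-- colour weight -/
noncomputable def wt (B : Finset Pt) (z : Pt) : ℤ := by
  classical exact if z ∈ B then 1 else -1

open Classical in
lemma wsum (A B : Finset Pt) (hd : Disjoint A B) (P : Pt → Prop) [DecidablePred P] :
    ∑ z ∈ (A ∪ B).filter P, wt B z = ((B.filter P).card : ℤ) - ((A.filter P).card : ℤ) := by
  rw [filter_union, sum_union (disjoint_filter_filter hd)]
  have h1 : ∑ z ∈ A.filter P, wt B z = - ((A.filter P).card : ℤ) := by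
    rw [sum_congr rfl (g := fun _ => (-1 : ℤ))]
    · simp
    · intro z hz
      have : z ∉ B := disjoint_left.1 hd (mem_filter.1 hz).1
      simp [wt, this]
  have h2 : ∑ z ∈ B.filter P, wt B z = ((B.filter P).card : ℤ) := by
    rw [sum_congr rfl (g := fun _ => (1 : ℤ))]
    · simp
    · intro z hz
      simp [wt, (mem_filter.1 hz).1]
  rw [h1, h2]; ring

open Classical in
lemma wsum_erase (A B : Finset Pt) (hd : Disjoint A B) {v : Pt} (hv : v ∈ A) (P : Pt → Prop)
    [DecidablePred P] (hP : P v) :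
    ∑ z ∈ ((A ∪ B).erase v).filter P, wt B z =
      ((B.filter P).card : ℤ) - ((A.filter P).card : ℤ) + 1 := by
  rw [filter_erase, sum_erase_eq_sub (by simp [hv, hP]), wsum A B hd P]
  have : v ∉ B := disjoint_left.1 hd hv
  simp [wt, this]

open Classical in
lemma wsum_ne (A B : Finset Pt) (hd : Disjoint A B) {v : Pt} (P : Pt → Prop)
    [DecidablePred P] (hP : ¬ P v) :
    ∑ z ∈ ((A ∪ B).erase v).filter P, wt B z =
      ((B.filter P).card : ℤ) - ((A.filter P).card : ℤ) := by
  rw [filter_erase, erase_eq_of_notMem (by simp [hP]), wsum A B hd P]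

lemma part3 (S : Finset Pt) (g : Fn) : S.card = (S.filter (fun z => ev g z < 0)).card +
    (S.filter (fun z => 0 ≤ ev g z)).card := by
  classical
  rw [← card_filter_add_card_filter_not (s := S) (p := fun z => ev g z < 0)]
  congr 2
  ext z; simp

lemma part3' (S : Finset Pt) (g : Fn) : S.card = (S.filter (fun z => 0 < ev g z)).card +
    (S.filter (fun z => ev g z ≤ 0)).card := by
  classical
  rw [← card_filter_add_card_filter_not (s := S) (p := fun z => 0 < ev g z)]
  congr 2
  ext z; simp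

lemma part4 (S : Finset Pt) (g : Fn) : (S.filter (fun z => 0 ≤ ev g z)).card =
    (S.filter (fun z => 0 < ev g z)).card + (S.filter (fun z => ev g z = 0)).card := by
  classical
  rw [← card_filter_add_card_filter_not (s := S.filter (fun z => 0 ≤ ev g z))
    (p := fun z => 0 < ev g z), filter_filter, filter_filter]
  congr 2
  · ext z
    simp only [mem_filter]
    constructor
    · rintro ⟨h1, h2, h3⟩; exact ⟨h1, h3⟩
    · rintro ⟨h1, h2⟩; exact ⟨h1, h2.le, h2⟩
  · ext z
    simp only [mem_filter]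
    constructor
    · rintro ⟨h1, h2, h3⟩; exact ⟨h1, le_antisymm (not_lt.1 h3) h2⟩
    · rintro ⟨h1, h2⟩; exact ⟨h1, h2.ge, not_lt.2 h2.le⟩

/-- the case `v ∈ A` -/
theorem half (hUPC : UPC_stmt) (hMCU : MCU_stmt) (M : ℕ) (A B : Finset Pt) (h1M : 1 ≤ M)
    (hM2 : M ≤ 2) (hd : Disjoint A B) (hcard : A.card = B.card) (hH : Hyp M A B)
    (hI : IH M (A.card + B.card))
    (hmono : ∀ g, Nc g → (∀ z ∈ A ∪ B, 0 ≤ ev g z) →
      (∀ a ∈ A, ev g a ≠ 0) ∨ (∀ b ∈ B, ev g b ≠ 0))
    (v : Pt) (hv : v ∈ A) (hmin : ∀ z ∈ A ∪ B, v.1 < z.1 ∨ (v.1 = z.1 ∧ v.2 ≤ z.2)) :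
    Fge A B (2 * A.card + 1 - 2 * M) := by
  classical
  obtain ⟨h, hh⟩ : ∃ h : Fn, h = ⟨1, 0, -v.1⟩ := ⟨_, rfl⟩
  obtain ⟨t, ht⟩ : ∃ t : Fn, t = ⟨0, 1, -v.2⟩ := ⟨_, rfl⟩
  have eh : ∀ z, ev h z = z.1 - v.1 := fun z => by rw [hh]; simp [ev]; ring
  have et : ∀ z, ev t z = z.2 - v.2 := fun z => by rw [ht]; simp [ev]; ring
  have h0 : ∀ z ∈ A ∪ B, 0 ≤ ev h z := by
    intro z hz
    rw [eh]
    rcases hmin z hz with h | h
    · linarith
    · linarith [h.1]
  have ht0 : ∀ z ∈ A ∪ B, z ≠ v → ev h z = 0 → 0 < ev t z := by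
    intro z hz hzv hz0
    rw [eh] at hz0
    rw [et]
    rcases hmin z hz with h | h
    · linarith
    · rcases h.2.lt_or_eq with h2 | h2
      · linarith
      · exact absurd (Prod.ext h.1.symm h2.symm) hzv
  have hvU : v ∈ A ∪ B := mem_union_left _ hv
  have hhv : ev h v = 0 := by rw [eh]; ring
  have htv : ev t v = 0 := by rw [et]; ring
  have hnoB : ∀ b ∈ B, ev h b ≠ 0 := by
    rcases hmono h (Or.inl (by rw [hh]; norm_num)) h0 with h1 | h1
    · exact absurd hhv (h1 v hv)
    · exact h1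
  obtain ⟨s, ⟨z0, hz0, hz1, hz2⟩, hs1, hs2⟩ := hUPC ((A ∪ B).erase v) t h (wt B) 0
    (fun z hz => h0 z (mem_of_mem_erase hz))
    (fun z hz h1 => ht0 z (mem_of_mem_erase hz) (ne_of_mem_erase hz) h1)
    (by
      rw [wsum_erase A B hd hv _ hhv]
      have e1 : B.filter (fun z => ev h z = 0) = ∅ := by
        apply filter_eq_empty_iff.2
        intro z hz
        exact hnoB z hz
      have e2 : 1 ≤ (A.filter (fun z => ev h z = 0)).card :=
        card_pos.2 ⟨v, mem_filter.2 ⟨hv, hhv⟩⟩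
      rw [e1, card_empty]
      have : (1 : ℤ) ≤ ((A.filter (fun z => ev h z = 0)).card : ℤ) := by exact_mod_cast e2
      push_cast
      linarith)
    (by
      have := wsum_erase A B hd hv (fun _ => True) trivial
      simp only [filter_true] at this
      rw [this, hcard]
      linarith)
  obtain ⟨g, hg⟩ : ∃ g : Fn, g = lin 1 t (-s) h 0 := ⟨_, rfl⟩
  have eg : ∀ z, ev g z = ev t z - s * ev h z := fun z => by rw [hg, ev_lin]; ring
  have hgv : ev g v = 0 := by rw [eg, hhv, htv]; ring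
  have q1 : (((A ∪ B).erase v).filter (fun z => s * ev h z < ev t z)) =
      (((A ∪ B).erase v).filter (fun z => 0 < ev g z)) := by
    apply filter_congr
    intro z _
    rw [eg]
    constructor <;> intro h <;> linarith
  have q2 : (((A ∪ B).erase v).filter (fun z => s * ev h z ≤ ev t z)) =
      (((A ∪ B).erase v).filter (fun z => 0 ≤ ev g z)) := by
    apply filter_congr
    intro z _
    rw [eg]
    constructor <;> intro h <;> linarith
  rw [q1, wsum_ne A B hd _ (by rw [hgv]; exact lt_irrefl _)] at hs1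
  rw [q2, wsum_erase A B hd hv _ (by rw [hgv])] at hs2
  have a1 := part3 A g
  have a2 := part3 B g
  have a3 := part3' A g
  have a4 := part3' B g
  have a5 := part4 A g
  have a6 := part4 B g
  have hBpt : ∃ b ∈ B, ev g b = 0 := by
    have : 0 < (B.filter (fun z => ev g z = 0)).card := by
      have : 1 ≤ (A.filter (fun z => ev g z = 0)).card :=
        card_pos.2 ⟨v, mem_filter.2 ⟨hv, hgv⟩⟩
      omega
    obtain ⟨b, hb⟩ := card_pos.1 this
    exact ⟨b, (mem_filter.1 hb).1, (mem_filter.1 hb).2⟩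
  have hgb : g.b = 1 := by rw [hg, ht, hh]; simp [lin]
  apply hMCU M A B g h v h1M hM2 hd hH hI hv hgv hhv
  · unfold det
    rw [hgb, hh]
    norm_num
  · intro z hz hgz hzv
    rcases (h0 z hz).lt_or_eq with h1 | h1
    · exact h1
    · have := ht0 z hz hzv h1.symm
      rw [eg, ← h1] at hgz
      linarith
  · omega
  · omega
  · omega
  · by_contra hc
    push Not at hc
    obtain ⟨b, hb, hb0⟩ := hBpt
    rcases hmono g (Or.inr (by rw [hgb]; norm_num)) hc with h1 | h1
    · exact h1 v hv hgv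
    · exact h1 b hb hb0
  · by_contra hc
    push Not at hc
    obtain ⟨b, hb, hb0⟩ := hBpt
    have eg' : ∀ z, ev (lin (-1) g 0 g 0) z = - ev g z := fun z => by rw [ev_lin]; ring
    rcases hmono (lin (-1) g 0 g 0) (Or.inr (by simp [lin, hgb])) (fun z hz => by
      rw [eg']; linarith [hc z hz]) with h1 | h1
    · exact h1 v hv (by rw [eg', hgv]; ring)
    · exact h1 b hb (by rw [eg', hb0]; ring)

lemma exists_lexmin (S : Finset Pt) (hS : S.Nonempty) :
    ∃ v ∈ S, ∀ z ∈ S, v.1 < z.1 ∨ (v.1 = z.1 ∧ v.2 ≤ z.2) := by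
  obtain ⟨v, hv, hmin⟩ := exists_min_image S (fun z => toLex z) hS
  refine ⟨v, hv, fun z hz => ?_⟩
  have := hmin z hz
  rw [Prod.Lex.toLex_le_toLex] at this
  exact this

end VK.MONaux

namespace VK

theorem MON_proved (hUPC : UPC_stmt) (hMCU : MCU_stmt) (hBAS : BAS_stmt) : MON_stmt := by
  intro M A B h1 h2 hd hA hcard hH hI hmono
  obtain ⟨-, -, hsw, -, hHs, -, -⟩ := hBAS
  obtain ⟨v, hv, hmin⟩ := MONaux.exists_lexmin (A ∪ B) (hA.mono Finset.subset_union_left)
  rcases Finset.mem_union.1 hv with hvA | hvB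
  · exact MONaux.half hUPC hMCU M A B h1 h2 hd hcard hH hI hmono v hvA hmin
  · rw [hcard]
    apply hsw
    refine MONaux.half hUPC hMCU M B A h1 h2 hd.symm hcard.symm (hHs _ _ _ hH)
      (by rw [add_comm]; exact hI) ?_ v hvB ?_
    · intro g hg hz
      rw [Finset.union_comm] at hz
      exact (hmono g hg hz).symm
    · rw [Finset.union_comm]; exact hmin

end VK
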